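import Pool.Agent.Helper60.BO.StP

/-!
Props for THEOREM P (Beck-Fiala, MP_e8ee11_co): discrepancy at most C (sqrt t + sqrt L (1 + log L)),
L = log (t log n).  See bf_helper66b.md and bf66_props.md in the store.  Unchanged from
Helper50/BO/St.lean: S1a-c, S2a-c.  Unchanged from Helper60/BO/StP.lean: RTP.
-/

namespace Pool.Agent.Helper66.BO

open Matrix Pool.Agent.Helper50.BO Pool.Agent.Helper60.BO

/-! ### schedule -/

/-- weighted size of the row `T` at level `i` (helper98) -/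
noncomputable def yS {V : Type} (R0 : ℕ) (T : Finset V) (k : V → ℕ) (i : ℕ) : ℝ :=
  ∑ v ∈ T.filter fun v => i ≤ k v, (R0 : ℝ) ^ (k v - i)

/-- ridge of the row `T` at level `i`, ridge parameter `Λ`, giant threshold `s` -/
noncomputable def ridgeP {V : Type} (Λ s : ℝ) (R0 : ℕ) (T : Finset V) (k : V → ℕ) (i : ℕ) : ℝ :=
  if s ≤ yS R0 T k i then 1 else Λ

/-- the matrix of level `i` : ridge plus Gram matrix of the elements of rank at least `i` -/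
noncomputable def LMP {V J : Type} [Fintype V] [Fintype J] [DecidableEq V] [DecidableEq J]
    (S : J → Finset V) (Λ s : ℝ) (R0 : ℕ) (k : V → ℕ) (i : ℕ) : Matrix J J ℝ :=
  Matrix.diagonal (fun j => ridgeP Λ s R0 (S j) k i) + Gm (inc S) (lvl k i)

/-- S3P: the schedule with a family of ridges. -/
def S3P : Prop := ∀ (V J A : Type) [Fintype V] [Fintype J] [Fintype A] [DecidableEq V]
  [DecidableEq J] (S : J → Finset V) (t R0 Lh q : ℕ) (Λ s : A → ℝ),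
  1 ≤ t → Nonempty V → Nonempty J → Nonempty A →
  (∀ v, (Finset.univ.filter fun j => v ∈ S j).card ≤ t) →
  (∀ x, 64 * (t : ℝ) ≤ Λ x) → (∀ x, 1 ≤ s x) → (∀ x, Λ x * Real.log (1 + s x) ≤ s x) →
  2 ≤ R0 → 1 ≤ q → 16 * q * t ≤ Lh →
  3 * (Fintype.card V + 2) * Fintype.card J < 2 ^ q →
  ∃ k : V → ℕ,
    (∀ v, (R0 ^ 2) ^ k v ≤ 4 * Fintype.card V) ∧
    (∀ i u, k u = i → Fintype.card A ≤ 2 * (Finset.univ.filter fun x =>
      Λ x * lv (LMP S (Λ x) (s x) R0 k (i + 1)) (inc S u) ≤ 64 * t).card) ∧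
    (∀ i, ∀ y : J → ℝ, ∑ u ∈ exq k i, (inc S u ⬝ᵥ y) ^ 2
      ≤ 16 * R0 ^ 2 * (Lh * (y ⬝ᵥ y) + ∑ v ∈ lvl k (i + 1), (inc S v ⬝ᵥ y) ^ 2))

/-! ### one round -/

/-- R1P: linear algebra of one round with a family of ridges; the correction of `u` is the average
over the ridges which are good for `u`; the row `j` is scaled by `β j`, the displacements by `β0`. -/
def R1P : Prop := ∀ (V J A : Type) [Fintype V] [Fintype J] [Fintype A] [DecidableEq V]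
  [DecidableEq J] (a : V → J → ℝ) (E R : Finset V) (lam : A → J → ℝ) (Λ : A → ℝ) (β : J → ℝ)
  (β0 τ B Λm Θ : ℝ),
  Disjoint E R → Nonempty A → (∀ v j, a v j = 0 ∨ a v j = 1) → 0 ≤ τ → 0 ≤ B →
  (∀ x, 1 ≤ Λ x) → (∀ x, Λ x ≤ Λm) → (∀ x j, 1 ≤ lam x j) →
  (∀ j, 0 ≤ β j) → (∀ x j, β j ^ 2 * lam x j ≤ Λ x) → 0 ≤ β0 → (∀ x, β0 ^ 2 ≤ Λ x) →
  (∀ u ∈ E, Fintype.card A ≤ 2 * (Finset.univ.filter fun x =>
    Λ x * lv (Matrix.diagonal (lam x) + Gm a R) (a u) ≤ τ).card) →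
  (∀ y : J → ℝ, ∑ u ∈ E, (a u ⬝ᵥ y) ^ 2
      ≤ B * (∑ j, y j ^ 2 + ∑ v ∈ R, (a v ⬝ᵥ y) ^ 2)) →
  (∀ j, β j * (2 / Fintype.card A * ∑ x, min √(lam x j * τ / Λ x)
    (1 + √(((R.filter fun v => a v j ≠ 0).card : ℝ) * τ / Λ x))) ≤ Θ) →
  (∀ x, β0 * √(τ / Λ x) ≤ Θ) →
  ∃ c : J ⊕ V → V → ℝ, (∀ r, ∀ u, u ∉ E → c r u = 0) ∧ (∀ u, ∑ r, c r u ^ 2 ≤ τ) ∧
    (∀ r, ∑ u, c r u ^ 2 ≤ 2 * B * Λm) ∧ (∀ r u, |c r u| ≤ Θ) ∧
    (∀ j, (∀ v ∈ E ∪ R, a v j = 0) → ∀ u, c (Sum.inl j) u = 0) ∧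
    ∀ ξ : V → ℝ, ∃ δ : V → ℝ, (∀ v, v ∉ R → δ v = 0) ∧
      (∀ v, β0 * |δ v| ≤ |∑ u, c (Sum.inr v) u * ξ u|) ∧
      ∀ j, β j * (∑ u ∈ E, a u j * ξ u + ∑ v ∈ R, a v j * δ v) = ∑ u, c (Sum.inl j) u * ξ u

/-- THP: the numeric bound for the entries of a row of weighted size `Y` which is not a giant for
the thresholds `s0 * 2 ^ x`, ridge parameters `s / log (1 + s)`. -/
def THP : Prop := ∀ (m : ℕ) (s0 τ Y : ℝ), 1 ≤ m → 16 ≤ s0 → 0 ≤ τ → 0 ≤ Y →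
  ∑ x : Fin m, (if Y < s0 * 2 ^ (x : ℕ) then
    min (√τ) √(Y * τ * Real.log (1 + s0 * 2 ^ (x : ℕ)) / (s0 * 2 ^ (x : ℕ))) else 0)
    ≤ √τ * (2 * Real.log (Real.log (1 + s0 * 2 ^ m)) + 6)

/-- final theorem P -/
def FinP0 (C : ℝ) : Prop := ∀ (V J : Type) [Fintype V] [Fintype J] [DecidableEq V]
  (S : J → Finset V) (t : ℕ), 1 ≤ t → (∀ v, (Finset.univ.filter fun j => v ∈ S j).card ≤ t) →
  ∃ χ : V → ℤ, (∀ v, χ v = 1 ∨ χ v = -1) ∧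
    ∀ j, |((∑ v ∈ S j, χ v : ℤ) : ℝ)| ≤ C * (√t +
      √(1 + Real.log t + Real.log (1 + Real.log (Fintype.card V + 1))) *
      (1 + Real.log (1 + Real.log t + Real.log (1 + Real.log (Fintype.card V + 1)))))

end Pool.Agent.Helper66.BO
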